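import Mathlib
import Pool.Agent.Run7.h640.FP.Iface

/-! Project FP (helper640): the pieces CONN, TOP, BACK. -/

set_option autoImplicit false

open Finset
open scoped Classical
open Pool.Agent.H13R3.WB

namespace Run7.h629.FP

open Run7.h640.FP

section conn

variable {P : Type} [Fintype P] [PartialOrder P]

omit [Fintype P] [PartialOrder P] in
lemma mem_Mn {r : P → P → Prop} {S : Finset P} {m : P} :
    m ∈ Mn r S ↔ m ∈ S ∧ ∀ a ∈ S, ¬ r a m := by
  simp only [Mn, mem_filter]

lemma low_insert {J : Finset P} (hJ : IsLow J) (p : P) (hp : p ∉ J) :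
    IsLow (insert p J) ↔ p ∈ Mn (fun a b : P => a < b) (univ \ J) := by
  rw [mem_Mn, mem_sdiff]
  constructor
  · intro h
    refine ⟨⟨mem_univ _, hp⟩, fun a ha hap => ?_⟩
    rw [mem_sdiff] at ha
    have h1 := h p (mem_insert_self _ _) a (le_of_lt hap)
    rcases mem_insert.mp h1 with h2 | h2
    · exact absurd h2 (ne_of_lt hap)
    · exact ha.2 h2
  · rintro ⟨_, h⟩ q hq s hs
    rcases mem_insert.mp hq with rfl | hq
    · by_cases hsq : s = q
      · rw [hsq]; exact mem_insert_self _ _
      · apply mem_insert_of_mem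
        by_contra hsJ
        exact h s (mem_sdiff.mpr ⟨mem_univ _, hsJ⟩) (lt_of_le_of_ne hs hsq)
    · exact mem_insert_of_mem (hJ q hq s hs)

omit [PartialOrder P] in
lemma erase_compl (J : Finset P) (p : P) : (univ \ J).erase p = univ \ insert p J := by
  ext q
  simp only [mem_erase, mem_sdiff, mem_univ, true_and, mem_insert, not_or]

lemma D_low (m : ℕ) : ∀ J : Finset P, IsLow J →
    D IsLow m J = Ek (fun a b : P => a < b) m (univ \ J) := by
  induction m with
  | zero => intro J _; simp [D, Ek]
  | succ m ih =>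
    intro J hJ
    rw [D, Ek]
    have h1 : (univ.filter fun p => p ∉ J ∧ IsLow (insert p J)) =
        Mn (fun a b : P => a < b) (univ \ J) := by
      ext p
      rw [mem_filter]
      constructor
      · rintro ⟨_, h2, h3⟩
        exact (low_insert hJ p h2).mp h3
      · intro h
        have hp : p ∉ J := by
          rw [mem_Mn, mem_sdiff] at h
          exact h.1.2
        exact ⟨mem_univ _, hp, (low_insert hJ p hp).mpr h⟩
    rw [← h1]
    apply sum_congr rfl
    intro p hp
    rw [mem_filter] at hp
    rw [ih _ hp.2.2, erase_compl]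

/-- once `x` is in the initial segment -/
lemma D_in (x y : P) (m : ℕ) : ∀ J : Finset P, x ∈ J →
    D (fun J : Finset P => IsLow J ∧ (y ∈ J → x ∈ J)) m J = D IsLow m J := by
  induction m with
  | zero => intro J _; simp [D]
  | succ m ih =>
    intro J hJ
    rw [D, D]
    have h1 : (univ.filter fun p => p ∉ J ∧ (IsLow (insert p J) ∧ (y ∈ insert p J → x ∈ insert p J))) =
        (univ.filter fun p => p ∉ J ∧ IsLow (insert p J)) := by
      ext p
      rw [mem_filter, mem_filter]
      constructor
      · rintro ⟨h2, h3, h4, _⟩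
        exact ⟨h2, h3, h4⟩
      · rintro ⟨h2, h3, h4⟩
        exact ⟨h2, h3, h4, fun _ => mem_insert_of_mem hJ⟩
    rw [h1]
    apply sum_congr rfl
    intro p _
    exact ih _ (mem_insert_of_mem hJ)

lemma D_out (x y : P) (hxy : x ≠ y) (m : ℕ) : ∀ J : Finset P, IsLow J → x ∉ J → y ∉ J →
    (univ \ J).card = m →
    D (fun J : Finset P => IsLow J ∧ (y ∈ J → x ∈ J)) m J =
      Fk (fun a b : P => a < b) x y m (univ \ J) := by
  induction m with
  | zero =>
    intro J _ hx _ hc
    rw [card_eq_zero] at hc
    exact absurd (mem_sdiff.mpr ⟨mem_univ x, hx⟩) (by rw [hc]; simp)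
  | succ m ih =>
    intro J hJ hx hy hc
    rw [D, Fk]
    have h0 : ∀ p ∈ Mn (fun a b : P => a < b) (univ \ J), p ∉ J := by
      intro p hp
      rw [mem_Mn, mem_sdiff] at hp
      exact hp.1.2
    have h1 : (univ.filter fun p => p ∉ J ∧ (IsLow (insert p J) ∧ (y ∈ insert p J → x ∈ insert p J))) =
        (Mn (fun a b : P => a < b) (univ \ J)).filter (fun p => p ≠ y) := by
      ext p
      rw [mem_filter, mem_filter]
      constructor
      · rintro ⟨_, h2, h3, h4⟩
        refine ⟨(low_insert hJ p h2).mp h3, ?_⟩
        rintro rfl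
        rcases mem_insert.mp (h4 (mem_insert_self _ _)) with h | h
        · exact hxy h
        · exact hx h
      · rintro ⟨h2, h3⟩
        refine ⟨mem_univ _, h0 p h2, (low_insert hJ p (h0 p h2)).mpr h2, ?_⟩
        intro h4
        rcases mem_insert.mp h4 with h | h
        · exact absurd h.symm h3
        · exact absurd h hy
    rw [h1, sum_filter]
    apply sum_congr rfl
    intro p hp
    by_cases hpy : p = y
    · simp [hpy]
    · rw [if_pos hpy, if_neg hpy]
      have hpl : IsLow (insert p J) := (low_insert hJ p (h0 p hp)).mpr hp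
      by_cases hpx : p = x
      · rw [if_pos hpx, D_in x y m _ (by rw [hpx]; exact mem_insert_self _ _), D_low m _ hpl,
          erase_compl]
      · rw [if_neg hpx, erase_compl]
        apply ih _ hpl
        · rw [mem_insert, not_or]; exact ⟨fun h => hpx h.symm, hx⟩
        · rw [mem_insert, not_or]; exact ⟨fun h => hpy h.symm, hy⟩
        · rw [← erase_compl, card_erase_of_mem (mem_sdiff.mpr ⟨mem_univ _, h0 p hp⟩), hc]
          rfl

omit [Fintype P] [PartialOrder P] in
lemma Fk_self (r : P → P → Prop) (x : P) (m : ℕ) : ∀ S : Finset P, Fk r x x m S = 0 := by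
  induction m with
  | zero => intro S; rfl
  | succ m ih =>
    intro S
    rw [Fk]
    apply sum_eq_zero
    intro p _
    by_cases h : p = x
    · rw [if_pos h]
    · rw [if_neg h, if_neg h, ih]

omit [Fintype P] in
lemma low_empty : IsLow (∅ : Finset P) := by
  intro p hp; simp at hp

lemma card_mono : (Nat.card {f : P ≃ Fin (Fintype.card P) // Monotone f}) =
    En (fun a b : P => a < b) univ := by
  have h1 := card_count (P := P) IsLow (n := Fintype.card P) rfl low_empty
  rw [D_low _ _ low_empty, sdiff_empty] at h1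
  rw [En, card_univ, ← h1, Nat.card_eq_fintype_card, Fintype.card_subtype]
  congr 1
  ext f
  rw [mem_filter, mem_filter, mono_iff]

lemma card_mono_lt (x y : P) (hxy : x ≠ y) :
    (Nat.card {f : P ≃ Fin (Fintype.card P) // Monotone f ∧ f x < f y}) =
    Fn (fun a b : P => a < b) x y univ := by
  have h1 := card_count (P := P) (fun J : Finset P => IsLow J ∧ (y ∈ J → x ∈ J))
    (n := Fintype.card P) rfl ⟨low_empty, by simp⟩
  rw [D_out x y hxy _ _ low_empty (by simp) (by simp) (by rw [sdiff_empty, card_univ]),
    sdiff_empty] at h1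
  rw [Fn, card_univ, ← h1, Nat.card_eq_fintype_card, Fintype.card_subtype]
  congr 1
  ext f
  rw [mem_filter, mem_filter, mono_lt_iff f hxy]

end conn

/-- piece CONN -/
theorem prove_CONN : S_CONN := by
  intro P _ _ x y
  unfold pr
  by_cases hxy : x = y
  · subst hxy
    rw [prob_self, Fn, Fk_self]
    simp
  · unfold prob
    rw [card_mono, card_mono_lt x y hxy]

end Run7.h629.FP
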