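import Mathlib
import Pool.Agent.Run7.h640.FP.Iface

/-! Project FP (helper640): the pieces TOP and BACK. -/

set_option autoImplicit false

open Finset
open scoped Classical
open Pool.Agent.H13R3.WB

namespace Run7.h629.FP

open Run7.h640.FP

lemma range_image {P : Type} [Fintype P] {n : ℕ} (e : P ≃ Fin n) (inst : DecidableEq ℕ) :
    @Finset.image _ _ inst (fun a => (e a : ℕ)) (univ : Finset P) = range n := by
  ext k
  rw [mem_image, mem_range]
  constructor
  · rintro ⟨a, _, rfl⟩
    exact (e a).2
  · intro hk
    exact ⟨e.symm ⟨k, hk⟩, mem_univ _, by simp⟩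

/-- the balance constant only depends on the order of the labels -/
lemma balance_eq (hC : S_CONN) (hM : S_MAP) (P : Type) [Fintype P] [PartialOrder P] (n : ℕ)
    (r : ℕ → ℕ → Prop) (e : P ≃ Fin n) (h : ∀ x y : P, r (e x : ℕ) (e y : ℕ) ↔ x < y) :
    balance P = bal r n := by
  have key : ∀ x y : P, prob P x y = pr r (e x : ℕ) (e y : ℕ) (range n) := by
    intro x y
    obtain ⟨h1, h2⟩ := hM P ℕ (fun a b : P => a < b) r (fun a => (e a : ℕ)) univ
      (fun a _ b _ hab => e.injective (Fin.ext hab)) (fun a _ b _ => h a b)
    rw [hC P x y]
    unfold pr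
    have h3 := h2 x (mem_univ _) y (mem_univ _)
    rw [← h1, ← h3, range_image e]
  unfold balance bal
  apply Equiv.iSup_congr (Equiv.prodCongr e e)
  intro p
  simp only [Equiv.prodCongr_apply, Prod.map_fst, Prod.map_snd]
  rw [key, key]

/-- piece BACK -/
theorem prove_BACK : S_BACK := by
  intro hC hM D n r hr
  let po : PartialOrder (Fin n) :=
    { le := fun x y => x = y ∨ r x y
      lt := fun x y => r x y
      le_refl := fun x => Or.inl rfl
      le_trans := by
        rintro x y z (rfl | h1) (rfl | h2)
        · exact Or.inl rfl
        · exact Or.inr h2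
        · exact Or.inr h1
        · exact Or.inr (hr.trans _ _ _ h1 h2)
      lt_iff_le_not_ge := by
        intro x y
        constructor
        · intro h
          refine ⟨Or.inr h, ?_⟩
          rintro (h1 | h1)
          · rw [h1] at h
            exact absurd (hr.lt _ _ h) (lt_irrefl _)
          · exact absurd (hr.lt _ _ h) (not_lt.mpr (le_of_lt (hr.lt _ _ h1)))
        · rintro ⟨h1 | h1, h2⟩
          · exact absurd (Or.inl h1.symm) h2
          · exact h1
      le_antisymm := by
        rintro x y (h1 | h1) (h2 | h2)
        · exact h1
        · exact h1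
        · exact h2.symm
        · exact absurd (hr.lt _ _ h1) (not_lt.mpr (le_of_lt (hr.lt _ _ h2))) }
  refine ⟨Fin n, inferInstance, po, Equiv.refl _, Fintype.card_fin n, fun x y => Iff.rfl, ?_⟩
  exact @balance_eq hC hM (Fin n) _ po n r (Equiv.refl _) (fun x y => Iff.rfl)

/-- piece TOP -/
theorem prove_TOP : S_TOP := by
  intro hC hM P _ _ K hK
  set n := Fintype.card P with hn
  -- a linear extension
  let inst : Fintype (LinearExtension P) := inferInstanceAs (Fintype P)
  have hcard : Fintype.card (LinearExtension P) = n := Fintype.card_congr (Equiv.refl P)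
  let e1 : Fin n ≃o LinearExtension P := monoEquivOfFin (LinearExtension P) hcard
  let e : P ≃ Fin n := e1.toEquiv.symm
  have he : ∀ x y : P, x ≤ y → e x ≤ e y := by
    intro x y hxy
    have h1 : (toLinearExtension x : LinearExtension P) ≤ toLinearExtension y :=
      toLinearExtension.monotone hxy
    exact e1.symm.monotone h1
  have helt : ∀ x y : P, x < y → (e x : ℕ) < (e y : ℕ) := by
    intro x y hxy
    have h1 := he x y (le_of_lt hxy)
    have h2 : e x ≠ e y := fun h => absurd (e.injective h) (ne_of_lt hxy)
    exact lt_of_le_of_ne (Fin.le_def.mp h1) (fun h => h2 (Fin.ext h))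
  let r : ℕ → ℕ → Prop := fun i j => (∃ x y : P, (e x : ℕ) = i ∧ (e y : ℕ) = j ∧ x < y) ∨
    (n ≤ j ∧ i < j)
  have hr : ∀ x y : P, r (e x : ℕ) (e y : ℕ) ↔ x < y := by
    intro x y
    constructor
    · rintro (⟨x', y', h1, h2, h3⟩ | ⟨h1, _⟩)
      · have e1 : x' = x := e.injective (Fin.ext h1)
        have e2 : y' = y := e.injective (Fin.ext h2)
        rw [← e1, ← e2]; exact h3
      · exact absurd (e y).2 (not_lt.mpr h1)
    · intro h
      exact Or.inl ⟨x, y, rfl, rfl, h⟩
  have hband : Band (2 * K + 2) r := by
    refine ⟨?_, ?_, ?_⟩
    · rintro i j (⟨x, y, rfl, rfl, h⟩ | ⟨_, h⟩)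
      · exact helt x y h
      · exact h
    · rintro i j k (⟨x, y, rfl, rfl, h⟩ | ⟨h1, h⟩) (⟨x', y', h3, rfl, h'⟩ | ⟨h1', h'⟩)
      · have : x' = y := e.injective (Fin.ext h3)
        subst this
        exact Or.inl ⟨x, y', rfl, rfl, lt_trans h h'⟩
      · exact Or.inr ⟨h1', lt_trans (helt x y h) h'⟩
      · rw [← h3] at h1
        exact absurd (e x').2 (not_lt.mpr h1)
      · exact Or.inr ⟨h1', lt_trans h h'⟩
    · intro i j hij hlt
      by_cases hj : n ≤ j
      · exact Or.inr ⟨hj, hlt⟩
      · push Not at hj
        by_contra hcon
        let g : ℕ → P := fun k => if hk : k < n then e.symm ⟨k, hk⟩ else e.symm ⟨j, hj⟩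
        have hg : ∀ k, k < n → (e (g k) : ℕ) = k := by
          intro k hk
          simp only [g, dif_pos hk, Equiv.apply_symm_apply]
        set a := g i with ha
        set b := g j with hb
        have hea : (e a : ℕ) = i := hg i (by omega)
        have heb : (e b : ℕ) = j := hg j hj
        have hab : ¬ a < b := fun h => hcon (Or.inl ⟨a, b, hea, heb, h⟩)
        have hab1 : ¬ a ≤ b := by
          intro h
          rcases lt_or_eq_of_le h with h | h
          · exact hab h
          · rw [h] at hea; omega
        have hba : ¬ b ≤ a := by
          intro h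
          have := he b a h
          rw [Fin.le_def] at this
          omega
        let A : Finset P := univ.filter fun y => ¬ a ≤ y ∧ ¬ y ≤ a
        let B : Finset P := univ.filter fun y => ¬ b ≤ y ∧ ¬ y ≤ b
        have hA : A.card ≤ K := by
          have := hK a
          rwa [Nat.card_eq_fintype_card, Fintype.card_subtype] at this
        have hB : B.card ≤ K := by
          have := hK b
          rwa [Nat.card_eq_fintype_card, Fintype.card_subtype] at this
        have hsub : (Ioc i j).image g ⊆ A ∪ B := by
          intro c hc
          rw [mem_image] at hc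
          obtain ⟨k, hk, rfl⟩ := hc
          rw [mem_Ioc] at hk
          have hek : (e (g k) : ℕ) = k := hg k (by omega)
          rw [mem_union, mem_filter, mem_filter]
          by_contra hcc
          push Not at hcc
          have h1 : ¬ g k ≤ a := by
            intro h
            have := he _ _ h
            rw [Fin.le_def] at this
            omega
          have h2 : a ≤ g k := by
            by_contra h
            exact h1 (hcc.1 (mem_univ _) h)
          by_cases hkj : k = j
          · exact hab1 (by rw [hkj] at h2; exact h2)
          · have h3 : ¬ b ≤ g k := by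
              intro h
              have := he _ _ h
              rw [Fin.le_def] at this
              omega
            exact hab1 (le_trans h2 (hcc.2 (mem_univ _) h3))
        have hinj : Set.InjOn g (Ioc i j : Finset ℕ) := by
          intro k hk l hl hkl
          rw [mem_coe, mem_Ioc] at hk hl
          have h1 := hg k (by omega)
          have h2 := hg l (by omega)
          rw [hkl] at h1
          omega
        have h1 := card_le_card hsub
        rw [card_image_of_injOn hinj, Nat.card_Ioc] at h1
        have h2 := card_union_le A B
        omega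
  exact ⟨r, e, hband, hr, balance_eq hC hM P n r e hr⟩

end Run7.h629.FP
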